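import Pool.Agent.Helper53.AE.GoalsC

/-!
# Project AE (MP_8130e1_an), packet THA: the action of `A` and `O`, existence (helper91)
-/

set_option autoImplicit false

open scoped ComplexOrder Topology
open Filter TopologicalSpace

namespace Pool.Agent.Helper91.AE.THA

open Pool.Agent.Helper53.AE

/-- A sequence that is uniformly close to convergent sequences is Cauchy. -/
theorem cauchy_of {M : Type} [NormedAddCommGroup M] (f : ℕ → M)
    (h : ∀ ε : ℝ, 0 < ε → ∃ (g : ℕ → M) (l : M), Tendsto g atTop (𝓝 l) ∧ ∀ n, ‖f n - g n‖ ≤ ε) :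
    CauchySeq f := by
  rw [Metric.cauchySeq_iff']
  intro ε hε
  obtain ⟨g, l, hg, hfg⟩ := h (ε / 4) (by linarith)
  rw [Metric.tendsto_atTop] at hg
  obtain ⟨N, hN⟩ := hg (ε / 8) (by linarith)
  refine ⟨N, fun n hn => ?_⟩
  have h1 := hN n hn
  have h2 := hN N le_rfl
  have h3 := hfg n
  have h4 := hfg N
  rw [dist_eq_norm] at h1 h2 ⊢
  have h5 : f n - f N = (f n - g n) + (g n - l) - (g N - l) - (f N - g N) := by abel
  rw [h5]
  calc ‖(f n - g n) + (g n - l) - (g N - l) - (f N - g N)‖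
      ≤ ‖(f n - g n) + (g n - l) - (g N - l)‖ + ‖f N - g N‖ := norm_sub_le _ _
    _ ≤ ‖(f n - g n) + (g n - l)‖ + ‖g N - l‖ + ‖f N - g N‖ := by
        gcongr
        exact norm_sub_le _ _
    _ ≤ ‖f n - g n‖ + ‖g n - l‖ + ‖g N - l‖ + ‖f N - g N‖ := by
        gcongr
        exact norm_add_le _ _
    _ < ε := by linarith

theorem t (hTBD : S_TBD) (hAUS : S_AUS) : S_THA := by
  intro J A O K M _ _ _ _ _ _ D k u T hE hk hD hu hid hT hd a x
  obtain ⟨v, hv, hvx⟩ := hAUS J
  choose α hα using fun n => hid a (v n)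
  have hun : ∀ j, ‖u j‖ = ‖j‖ := fun j => NonUnitalStarAlgHom.norm_map u hu j
  have hkn : ∀ d, ‖k d‖ = ‖d‖ := fun d => NonUnitalStarAlgHom.norm_map k hk d
  have hαn : ∀ n, ‖α n‖ ≤ ‖a‖ := by
    intro n
    rw [← hun, hα]
    calc ‖a * u (v n)‖ ≤ ‖a‖ * ‖u (v n)‖ := norm_mul_le _ _
      _ ≤ ‖a‖ * 1 := by
          gcongr
          rw [hun]
          exact (hv n).2
      _ = ‖a‖ := mul_one _
  have hTb := hTBD J O K T hT
  have hbn : ∀ n, ‖k (T (α n) x)‖ ≤ ‖a‖ * ‖x‖ := by
    intro n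
    rw [hkn]
    exact (hTb _ _).trans (by gcongr; exact hαn n)
  -- continuity of `T`
  have hTc : ∀ (w : ℕ → J) (j : J) (z : O), Tendsto w atTop (𝓝 j) →
      Tendsto (fun n => T (w n) z) atTop (𝓝 (T j z)) := by
    intro w j z hw
    rw [tendsto_iff_norm_sub_tendsto_zero] at hw ⊢
    refine squeeze_zero (fun n => norm_nonneg _) (fun n => ?_) (by simpa using hw.mul_const ‖z‖)
    have h1 : T (w n) z - T j z = T (w n - j) z := by rw [map_sub, LinearMap.sub_apply]
    rw [h1]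
    exact hTb _ _
  have hkc : Continuous k := by
    refine AddMonoidHomClass.continuous_of_bound k 1 (fun d => ?_)
    rw [hkn, one_mul]
  -- left side
  have hL : ∀ (j j' : J) (y : O) (d : K), u j' = a * u j →
      Tendsto (fun n => k (T (α n) x) * k (T j y * d)) atTop (𝓝 (k (T j' (x * y) * d))) := by
    intro j j' y d hj
    have h1 : ∀ n, k (T (α n) x) * k (T j y * d) = k (T (α n * j) (x * y) * d) := by
      intro n
      rw [← map_mul, ← mul_assoc, hT.1]
    simp only [h1]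
    have h2 : Tendsto (fun n => α n * j) atTop (𝓝 j') := by
      rw [tendsto_iff_norm_sub_tendsto_zero]
      have h3 := (hvx j).1
      rw [tendsto_iff_norm_sub_tendsto_zero] at h3
      refine squeeze_zero (fun n => norm_nonneg _) (fun n => ?_) (by simpa using h3.const_mul ‖a‖)
      rw [← hun, map_sub, map_mul, hα, hj]
      have h4 : a * u (v n) * u j - a * u j = a * u (v n * j - j) := by
        rw [map_sub, map_mul, mul_sub, mul_assoc]
      rw [h4]
      refine (norm_mul_le _ _).trans ?_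
      rw [hun]
    exact (hkc.tendsto _).comp ((hTc _ _ _ h2).mul_const d)
  -- right side
  have hR : ∀ (i : J) (y : O) (d : K), ∃ l,
      Tendsto (fun n => k (d * T i y) * k (T (α n) x)) atTop (𝓝 l) := by
    intro i y d
    obtain ⟨i2, hi2⟩ := hid (star a) (star i)
    have hi3 : u (star i2) = u i * a := by
      rw [map_star, hi2, map_star, star_mul, star_star, star_star]
    have h1 : ∀ n, k (d * T i y) * k (T (α n) x) = k (d * T (star i2 * v n) (y * x)) := by
      intro n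
      rw [← map_mul, mul_assoc, hT.1]
      have h4 : i * α n = star i2 * v n := by
        apply hu
        rw [map_mul, map_mul, hα, hi3, mul_assoc]
      rw [h4]
    simp only [h1]
    have h2 := (hvx (star i2)).2
    exact ⟨_, (hkc.tendsto _).comp ((hTc _ _ _ h2).const_mul d)⟩
  have hC1 : ∀ w ∈ D, CauchySeq fun n => k (T (α n) x) * w := by
    intro w hw
    obtain ⟨d, rfl⟩ := (hD w).1 hw
    apply cauchy_of
    intro ε hε
    obtain ⟨j, hj, -⟩ := hd d (ε / (‖a‖ * ‖x‖ + 1)) (by positivity)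
    obtain ⟨j', hj'⟩ := hid a j
    refine ⟨_, _, hL j j' 1 d hj', fun n => ?_⟩
    have h1 : k (T (α n) x) * k d - k (T (α n) x) * k (T j 1 * d) =
        k (T (α n) x) * k (d - T j 1 * d) := by
      rw [map_sub, mul_sub]
    rw [h1]
    have h2 : ‖k (d - T j 1 * d)‖ ≤ ε / (‖a‖ * ‖x‖ + 1) := by
      rw [hkn, norm_sub_rev]
      exact hj.le
    calc ‖k (T (α n) x) * k (d - T j 1 * d)‖
        ≤ ‖k (T (α n) x)‖ * ‖k (d - T j 1 * d)‖ := norm_mul_le _ _
      _ ≤ (‖a‖ * ‖x‖ + 1) * (ε / (‖a‖ * ‖x‖ + 1)) := by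
          gcongr
          exact (hbn n).trans (by linarith)
      _ = ε := by
          field_simp
  have hC2 : ∀ w ∈ D, CauchySeq fun n => w * k (T (α n) x) := by
    intro w hw
    obtain ⟨d, rfl⟩ := (hD w).1 hw
    apply cauchy_of
    intro ε hε
    obtain ⟨j, -, hj⟩ := hd d (ε / (‖a‖ * ‖x‖ + 1)) (by positivity)
    obtain ⟨l, hl⟩ := hR j 1 d
    refine ⟨_, _, hl, fun n => ?_⟩
    have h1 : k d * k (T (α n) x) - k (d * T j 1) * k (T (α n) x) =
        k (d - d * T j 1) * k (T (α n) x) := by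
      rw [map_sub, sub_mul]
    rw [h1]
    have h2 : ‖k (d - d * T j 1)‖ ≤ ε / (‖a‖ * ‖x‖ + 1) := by
      rw [hkn, norm_sub_rev]
      exact hj.le
    calc ‖k (d - d * T j 1) * k (T (α n) x)‖
        ≤ ‖k (d - d * T j 1)‖ * ‖k (T (α n) x)‖ := norm_mul_le _ _
      _ ≤ (ε / (‖a‖ * ‖x‖ + 1)) * (‖a‖ * ‖x‖ + 1) := by
          gcongr
          exact (hbn n).trans (by linarith)
      _ = ε := by
          field_simp
  obtain ⟨m, hm⟩ := hE.strict (fun n => k (T (α n) x)) (‖a‖ * ‖x‖) hbn hC1 hC2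
  refine ⟨m, fun j j' y d hj => ?_⟩
  have h1 := (hm (k (T j y * d)) ((hD _).2 ⟨_, rfl⟩)).1
  exact tendsto_nhds_unique h1 (hL j j' y d hj)

end Pool.Agent.Helper91.AE.THA
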